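import Pool.Agent.Helper15.SA.Defs

set_option autoImplicit false

/-!
# EMS-2 Twist2: from sets on which the multipliers `p u_p / v_p` act to sets on which the primes act
-/

namespace Pool.Agent.Helper79.EMS

open Finset Pool.Agent.Helper80.DR Pool.Agent.Helper15.SA

/-- product of units -/
noncomputable def uu (T : Finset ℕ) (u v a b : ℕ → ℕ) : ℕ :=
  ∏ r ∈ T, (v r ^ a r * u r ^ b r)

theorem uu_mul (T : Finset ℕ) (u v a b a' b' : ℕ → ℕ) :
    uu T u v a b * uu T u v a' b' = uu T u v (fun r => a r + a' r) (fun r => b r + b' r) := by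
  unfold uu
  rw [← prod_mul_distrib]
  refine prod_congr rfl fun r _ => ?_
  rw [pow_add, pow_add]
  ring

theorem uu_congr (T : Finset ℕ) (u v a b a' b' : ℕ → ℕ) (ha : ∀ r ∈ T, a r = a' r)
    (hb : ∀ r ∈ T, b r = b' r) : uu T u v a b = uu T u v a' b' := by
  unfold uu
  exact prod_congr rfl fun r hr => by rw [ha r hr, hb r hr]

section

variable (T : Finset ℕ) (hT : ∀ p ∈ T, p.Prime) (u v : ℕ → ℕ)
  (hu : ∀ p ∈ T, ∀ r ∈ T, ¬ p ∣ u r) (hv : ∀ p ∈ T, ∀ r ∈ T, ¬ p ∣ v r)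

include hu in
theorem u_ne (r : ℕ) (hr : r ∈ T) : u r ≠ 0 := fun h => hu r hr r hr (h ▸ dvd_zero r)

include hv in
theorem v_ne (r : ℕ) (hr : r ∈ T) : v r ≠ 0 := fun h => hv r hr r hr (h ▸ dvd_zero r)

include hT hu hv in
theorem uu_not_dvd (a b : ℕ → ℕ) (p : ℕ) (hp : p ∈ T) : ¬ p ∣ uu T u v a b := by
  intro h
  unfold uu at h
  obtain ⟨r, hr, hpr⟩ := (Prime.dvd_finsetProd_iff (hT p hp).prime _).1 h
  rcases (Nat.Prime.dvd_mul (hT p hp)).1 hpr with h1 | h1
  · exact hv p hp r hr ((hT p hp).dvd_of_dvd_pow h1)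
  · exact hu p hp r hr ((hT p hp).dvd_of_dvd_pow h1)

include hu hv in
theorem uu_ne (a b : ℕ → ℕ) : uu T u v a b ≠ 0 := by
  unfold uu
  exact prod_ne_zero_iff.2 fun r hr =>
    mul_ne_zero (pow_ne_zero _ (v_ne T v hv r hr)) (pow_ne_zero _ (u_ne T u hu r hr))

include hT in
theorem ord_mul (p : ℕ) (hp : p ∈ T) (x : ℤ) (hx : x ≠ 0) (w : ℕ) (hw : w ≠ 0)
    (hpw : ¬ p ∣ w) : padicValInt p (x * (w : ℤ)) = padicValInt p x := by
  have := Fact.mk (hT p hp)
  rw [padicValInt.mul hx (by exact_mod_cast hw), padicValInt.of_nat,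
    padicValNat.eq_zero_of_not_dvd hpw, add_zero]

include hT hu hv in
theorem ord_uu (p : ℕ) (hp : p ∈ T) (x : ℤ) (hx : x ≠ 0) (a b : ℕ → ℕ) :
    padicValInt p (x * ((uu T u v a b : ℕ) : ℤ)) = padicValInt p x :=
  ord_mul T hT p hp x hx _ (uu_ne T u v hu hv a b) (uu_not_dvd T hT u v hu hv a b p hp)

theorem twist_eq (R : ℕ) (x : ℤ) : twist T u v R x =
    x * ((uu T u v (fun p => padicValInt p x) (fun p => R - padicValInt p x) : ℕ) : ℤ) := by
  unfold twist uu
  push_cast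
  rfl

include hT hu hv in
theorem ord_twist (R : ℕ) (p : ℕ) (hp : p ∈ T) (x : ℤ) (hx : x ≠ 0) :
    padicValInt p (twist T u v R x) = padicValInt p x := by
  rw [twist_eq]
  exact ord_uu T hT u v hu hv p hp x hx _ _

include hu hv in
theorem twist_ne (R : ℕ) (x : ℤ) (hx : x ≠ 0) : twist T u v R x ≠ 0 := by
  rw [twist_eq]
  exact mul_ne_zero hx (by exact_mod_cast uu_ne T u v hu hv _ _)

include hT hu hv in
theorem twist_inj (R : ℕ) (x y : ℤ) (hx : x ≠ 0) (hy : y ≠ 0)
    (h : twist T u v R x = twist T u v R y) : x = y := by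
  have h1 : ∀ p ∈ T, padicValInt p x = padicValInt p y := fun p hp => by
    have := congrArg (padicValInt p) h
    rwa [ord_twist T hT u v hu hv R p hp x hx, ord_twist T hT u v hu hv R p hp y hy] at this
  rw [twist_eq, twist_eq, uu_congr T u v _ _ (fun p => padicValInt p y)
    (fun p => R - padicValInt p y) h1 (fun p hp => by rw [h1 p hp])] at h
  have h2 : ((uu T u v (fun p => padicValInt p y) (fun p => R - padicValInt p y) : ℕ) : ℤ) ≠ 0 := by
    exact_mod_cast uu_ne T u v hu hv _ _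
  exact mul_right_cancel₀ h2 h

theorem uu_single (p : ℕ) (hp : p ∈ T) :
    uu T u v (fun _ => 0) (fun r => if r = p then 1 else 0) = u p ∧
    uu T u v (fun r => if r = p then 1 else 0) (fun _ => 0) = v p := by
  unfold uu
  constructor
  · rw [prod_eq_single_of_mem p hp fun r _ hr => by simp [hr]]
    simp
  · rw [prod_eq_single_of_mem p hp fun r _ hr => by simp [hr]]
    simp

include hT in
theorem ord_prime (p r : ℕ) (hp : p ∈ T) (hr : r ∈ T) :
    padicValInt r (p : ℤ) = if r = p then 1 else 0 := by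
  have := Fact.mk (hT p hp)
  have := Fact.mk (hT r hr)
  rw [padicValInt.of_nat]
  split_ifs with h
  · subst h
    exact padicValNat_self
  · exact padicValNat_primes h

include hT hu hv in
theorem twist_act (R : ℕ) (p : ℕ) (hp : p ∈ T) (x y : ℤ) (hx : x ≠ 0) (hy : y ≠ 0)
    (hR : ∀ r ∈ T, padicValInt r y ≤ R) (h : (p : ℤ) * (u p : ℤ) * x = (v p : ℤ) * y) :
    (p : ℤ) * twist T u v R x = twist T u v R y := by
  have hp0 : (p : ℤ) ≠ 0 := by exact_mod_cast (hT p hp).ne_zero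
  have hup : (u p : ℤ) ≠ 0 := by exact_mod_cast u_ne T u hu p hp
  have hvp : (v p : ℤ) ≠ 0 := by exact_mod_cast v_ne T v hv p hp
  have hm : ∀ r ∈ T, padicValInt r y = padicValInt r x + if r = p then 1 else 0 := by
    intro r hr
    have hrF := Fact.mk (hT r hr)
    have h3 := congrArg (padicValInt r) h
    rw [padicValInt.mul (mul_ne_zero hp0 hup) hx, padicValInt.mul hp0 hup,
      padicValInt.mul hvp hy, ord_prime T hT p r hp hr, padicValInt.of_nat, padicValInt.of_nat,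
      padicValNat.eq_zero_of_not_dvd (hu r hr p hp),
      padicValNat.eq_zero_of_not_dvd (hv r hr p hp)] at h3
    omega
  apply mul_left_cancel₀ hup
  rw [twist_eq, twist_eq]
  have h4 : (u p : ℕ) * uu T u v (fun r => padicValInt r y) (fun r => R - padicValInt r y) =
      (v p : ℕ) * uu T u v (fun r => padicValInt r x) (fun r => R - padicValInt r x) := by
    rw [← (uu_single T u v p hp).1, ← (uu_single T u v p hp).2, uu_mul, uu_mul]
    refine uu_congr T u v _ _ _ _ ?_ ?_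
    · intro r hr
      have := hm r hr
      omega
    · intro r hr
      have h5 := hm r hr
      have h6 := hR r hr
      split_ifs at h5 ⊢ <;> omega
  have h4' : ((u p : ℕ) : ℤ) * ((uu T u v (fun r => padicValInt r y)
      (fun r => R - padicValInt r y) : ℕ) : ℤ) =
      ((v p : ℕ) : ℤ) * ((uu T u v (fun r => padicValInt r x)
      (fun r => R - padicValInt r x) : ℕ) : ℤ) := by exact_mod_cast h4
  calc (u p : ℤ) * ((p : ℤ) * (x * ((uu T u v (fun r => padicValInt r x)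
        (fun r => R - padicValInt r x) : ℕ) : ℤ)))
      = ((p : ℤ) * (u p : ℤ) * x) * ((uu T u v (fun r => padicValInt r x)
        (fun r => R - padicValInt r x) : ℕ) : ℤ) := by ring
    _ = ((v p : ℤ) * y) * ((uu T u v (fun r => padicValInt r x)
        (fun r => R - padicValInt r x) : ℕ) : ℤ) := by rw [h]
    _ = y * (((v p : ℕ) : ℤ) * ((uu T u v (fun r => padicValInt r x)
        (fun r => R - padicValInt r x) : ℕ) : ℤ)) := by ring
    _ = y * (((u p : ℕ) : ℤ) * ((uu T u v (fun r => padicValInt r y)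
        (fun r => R - padicValInt r y) : ℕ) : ℤ)) := by rw [h4']
    _ = (u p : ℤ) * (y * ((uu T u v (fun r => padicValInt r y)
        (fun r => R - padicValInt r y) : ℕ) : ℤ)) := by ring

include hT hu hv in
theorem twist_card (B : Finset ℤ) (hB : (0 : ℤ) ∉ B) (R : ℕ)
    (hR : ∀ y ∈ B, ∀ r ∈ T, padicValInt r y ≤ R) (p : ℕ) (hp : p ∈ T) :
    (B.filter (fun x => ∃ y ∈ B, (p : ℤ) * (u p : ℤ) * x = (v p : ℤ) * y)).card ≤
      ((B.image (twist T u v R)).filter (fun z => (p : ℤ) * z ∈ B.image (twist T u v R))).card := by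
  refine Finset.card_le_card_of_injOn (twist T u v R) ?_ ?_
  · intro x hx
    rw [Finset.mem_coe, mem_filter] at hx
    obtain ⟨hxB, y, hyB, hxy⟩ := hx
    rw [Finset.mem_coe, mem_filter]
    refine ⟨mem_image_of_mem _ hxB, mem_image.2 ⟨y, hyB, ?_⟩⟩
    exact (twist_act T hT u v hu hv R p hp x y (fun h => hB (h ▸ hxB))
      (fun h => hB (h ▸ hyB)) (hR y hyB) hxy).symm
  · intro x hx y hy h
    rw [Finset.mem_coe, mem_filter] at hx hy
    exact twist_inj T hT u v hu hv R x y (fun h => hB (h ▸ hx.1)) (fun h => hB (h ▸ hy.1)) h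

include hT in
theorem ord_prod (D : Finset ℕ) (hD : D ⊆ T) (r : ℕ) (hr : r ∈ T) :
    padicValInt r (∏ p ∈ D, (p : ℤ)) = if r ∈ D then 1 else 0 := by
  have hrF := Fact.mk (hT r hr)
  induction D using Finset.induction_on with
  | empty => simp
  | insert q D hq ih =>
    have hqT : q ∈ T := hD (mem_insert_self _ _)
    have hD' : D ⊆ T := fun p hp => hD (mem_insert_of_mem hp)
    have h0 : (∏ p ∈ D, (p : ℤ)) ≠ 0 := prod_ne_zero_iff.2 fun p hp => by
      exact_mod_cast (hT p (hD' hp)).ne_zero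
    rw [prod_insert hq, padicValInt.mul (by exact_mod_cast (hT q hqT).ne_zero) h0, ih hD',
      ord_prime T hT q r hqT hr]
    by_cases h1 : r = q
    · subst h1
      simp [hq]
    · simp [h1]

/-- the new multipliers -/
noncomputable def qq (J : Finset ℕ) (q : ℕ) : ℕ :=
  q * uu T u v (fun r => if r ∈ J ∧ r ≠ q then 1 else 0) (fun r => if r = q then 1 else 0)

/-- the new errors -/
noncomputable def ee (J S D : Finset ℕ) : ℕ :=
  (∏ p ∈ D \ S, p) * uu T u v (fun r => if r ∈ D ∨ r ∈ J then 0 else 1)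
    (fun r => if r ∈ D then 1 else 0)

/-- the new `y` -/
noncomputable def tt (R : ℕ) (y : ℤ) : ℤ :=
  y * ((uu T u v (fun r => 2 * R - padicValInt r y - 1) (fun r => R + padicValInt r y) : ℕ) : ℤ)

include hT hu hv in
theorem identity (R : ℕ) (hR1 : 1 ≤ R) (J P S D H : Finset ℕ) (hJT : J ⊆ T) (hPT : P ⊆ T)
    (hJP : ∀ q ∈ J, ∀ p ∈ P, q < p) (hDP : D ⊆ P) (hDS : D ∩ S = H) (q : ℕ) (hq : q ∈ J)
    (x y : ℤ) (hx : x ≠ 0) (hxR : ∀ r ∈ T, padicValInt r x ≤ R)
    (hxz : twist T u v R x = (q : ℤ) * (∏ p ∈ D, (p : ℤ)) * y) :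
    ((uu T u v (fun _ => 2 * R) (fun _ => 2 * R) : ℕ) : ℤ) * x =
      ((qq T u v J q : ℕ) : ℤ) * (∏ p ∈ H, (p : ℤ)) * ((ee T u v J S D : ℕ) : ℤ) *
        tt T u v R y := by
  have hz0 : (q : ℤ) * (∏ p ∈ D, (p : ℤ)) * y ≠ 0 := by
    rw [← hxz]
    exact twist_ne T u v hu hv R x hx
  have hq0 : (q : ℤ) ≠ 0 := fun h => hz0 (by rw [h]; ring)
  have hD0 : (∏ p ∈ D, (p : ℤ)) ≠ 0 := fun h => hz0 (by rw [h]; ring)
  have hy0 : y ≠ 0 := fun h => hz0 (by rw [h]; ring)
  have hm : ∀ r ∈ T, padicValInt r x =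
      (if r = q then 1 else 0) + (if r ∈ D then 1 else 0) + padicValInt r y := by
    intro r hr
    have hrF := Fact.mk (hT r hr)
    have h1 := congrArg (padicValInt r) hxz
    rwa [ord_twist T hT u v hu hv R r hr x hx, padicValInt.mul (mul_ne_zero hq0 hD0) hy0,
      padicValInt.mul hq0 hD0, ord_prime T hT q r (hJT hq) hr,
      ord_prod T hT D (hDP.trans hPT) r hr] at h1
  have h2 : uu T u v (fun _ => 2 * R) (fun _ => 2 * R) =
      uu T u v (fun r => padicValInt r x) (fun r => R - padicValInt r x) *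
      (uu T u v (fun r => if r ∈ J ∧ r ≠ q then 1 else 0) (fun r => if r = q then 1 else 0) *
        uu T u v (fun r => if r ∈ D ∨ r ∈ J then 0 else 1) (fun r => if r ∈ D then 1 else 0) *
        uu T u v (fun r => 2 * R - padicValInt r y - 1) (fun r => R + padicValInt r y)) := by
    rw [uu_mul, uu_mul, uu_mul]
    have hdis : ∀ r, r ∈ D → r ∉ J := fun r hrD hrJ => lt_irrefl r (hJP r hrJ r (hDP hrD))
    refine uu_congr T u v _ _ _ _ ?_ ?_
    · intro r hr
      have h3 := hm r hr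
      have h4 := hxR r hr
      by_cases hrq : r = q
      · have hrJ : r ∈ J := hrq ▸ hq
        have hrD : r ∉ D := fun h => hdis r h hrJ
        simp only [hrq, hrJ, hrD, if_true, if_false, ne_eq, not_true_eq_false, and_false,
          or_true, false_or] at h3 ⊢
        subst hrq
        simp only [hrJ, hrD, if_true, if_false, or_true, false_or] at h3 ⊢
        omega
      · by_cases hrD : r ∈ D
        · have hrJ : r ∉ J := hdis r hrD
          simp only [hrq, hrJ, hrD, if_true, if_false, true_or, false_and] at h3 ⊢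
          omega
        · by_cases hrJ : r ∈ J
          · simp only [hrq, hrJ, hrD, if_true, if_false, or_true, ne_eq, not_false_eq_true,
              and_self] at h3 ⊢
            omega
          · simp only [hrq, hrJ, hrD, if_false, or_self, false_and] at h3 ⊢
            omega
    · intro r hr
      have h3 := hm r hr
      have h4 := hxR r hr
      split_ifs at h3 ⊢ <;> omega
  have h5 : (∏ p ∈ D, (p : ℤ)) = (∏ p ∈ H, (p : ℤ)) * ((∏ p ∈ D \ S, p : ℕ) : ℤ) := by
    have h7 := Finset.prod_inter_mul_prod_sdiff D S (fun p => (p : ℤ))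
    rw [hDS] at h7
    push_cast
    exact h7.symm
  rw [h2]
  unfold qq ee tt
  rw [twist_eq] at hxz
  push_cast
  rw [h5] at hxz
  push_cast at hxz
  set U1 : ℤ := ((uu T u v (fun r => padicValInt r x) (fun r => R - padicValInt r x) : ℕ) : ℤ)
  calc U1 * (((uu T u v (fun r => if r ∈ J ∧ r ≠ q then 1 else 0)
          (fun r => if r = q then 1 else 0) : ℕ) : ℤ) *
        ((uu T u v (fun r => if r ∈ D ∨ r ∈ J then 0 else 1)
          (fun r => if r ∈ D then 1 else 0) : ℕ) : ℤ) *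
        ((uu T u v (fun r => 2 * R - padicValInt r y - 1)
          (fun r => R + padicValInt r y) : ℕ) : ℤ)) * x
      = (x * U1) * (((uu T u v (fun r => if r ∈ J ∧ r ≠ q then 1 else 0)
          (fun r => if r = q then 1 else 0) : ℕ) : ℤ) *
        ((uu T u v (fun r => if r ∈ D ∨ r ∈ J then 0 else 1)
          (fun r => if r ∈ D then 1 else 0) : ℕ) : ℤ) *
        ((uu T u v (fun r => 2 * R - padicValInt r y - 1)
          (fun r => R + padicValInt r y) : ℕ) : ℤ)) := by ring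
    _ = _ := by
        rw [hxz]
        ring

include hT hu hv in
/-- [EMS-2] going back -/
theorem untwist2 (B : Finset ℤ) (hB : (0 : ℤ) ∉ B) (R : ℕ) (hR1 : 1 ≤ R)
    (hR : ∀ y ∈ B, ∀ r ∈ T, padicValInt r y ≤ R) (K : ℕ) (hK : 0 < K) (ε s : ℝ) (H : ℕ)
    (hC : Cube (B.image (twist T u v R)) T K ε s)
    (h2T : (2 : ℝ) ^ T.card ≤ (B.card : ℝ) ^ ε) (hlog : 0 < Real.log (B.card : ℝ))
    (hbad : ∀ q ∈ T, ∀ r ∈ T, q ≠ r → (T.filter (fun p => q < p ∧ r < p ∧
      (p : ℤ) ∣ (q : ℤ) * u q * v r - (r : ℤ) * u r * v q)).card ≤ H)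
    (hHK : (H : ℝ) * (K : ℝ) ^ 2 ≤ s / 2) :
    ∃ M : ℤ, M ≠ 0 ∧ Struct (dilate M B) K ε (s / 2 / Real.log (B.card : ℝ)) := by
  classical
  obtain ⟨J, P, S, Y, hJT, hJK, hPT, hSP, hJP, hs, hYne, hYlow, hYle, hcube⟩ := hC
  have hcard1 : (B.image (twist T u v R)).card = B.card := by
    refine card_image_of_injOn fun x hx y hy h => ?_
    exact twist_inj T hT u v hu hv R x y (fun h => hB (h ▸ hx)) (fun h => hB (h ▸ hy)) h
  rw [hcard1] at hYlow hYle
  obtain ⟨M, hM⟩ : ∃ M : ℤ, M = ((uu T u v (fun _ => 2 * R) (fun _ => 2 * R) : ℕ) : ℤ) :=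
    ⟨_, rfl⟩
  have hM0 : M ≠ 0 := by
    rw [hM]
    exact_mod_cast uu_ne T u v hu hv _ _
  have hcard2 : (dilate M B).card = B.card := by
    unfold dilate
    exact card_image_of_injective _ fun x y h => mul_left_cancel₀ hM0 h
  refine ⟨M, hM0, ?_⟩
  have hJne : J.Nonempty := by
    rw [← card_pos, hJK]
    exact hK
  -- the good primes of `S`
  obtain ⟨bad, hbadd⟩ : ∃ bad : ℕ → Prop, bad = fun p : ℕ => ∃ q ∈ J, ∃ r ∈ J, q ≠ r ∧
      (p : ℤ) ∣ (q : ℤ) * u q * v r - (r : ℤ) * u r * v q := ⟨_, rfl⟩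
  obtain ⟨S', hS'⟩ : ∃ S' : Finset ℕ, S' = S.filter (fun p => ¬ bad p) := ⟨_, rfl⟩
  have hS'S : S' ⊆ S := by rw [hS']; exact filter_subset _ _
  have hS'T : S' ⊆ T := hS'S.trans (hSP.trans hPT)
  have hS'c : s / 2 ≤ (S'.card : ℝ) := by
    have h1 : (S.filter bad).card ≤ H * K ^ 2 := by
      have h2 : S.filter bad ⊆ (J ×ˢ J).biUnion (fun qr => if qr.1 ≠ qr.2 then
          (T.filter (fun p => qr.1 < p ∧ qr.2 < p ∧
            (p : ℤ) ∣ (qr.1 : ℤ) * u qr.1 * v qr.2 - (qr.2 : ℤ) * u qr.2 * v qr.1)) else ∅) := by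
        intro p hp
        rw [mem_filter, hbadd] at hp
        obtain ⟨hpS, q, hq, r, hr, hqr, hdvd⟩ := hp
        rw [mem_biUnion]
        refine ⟨(q, r), mem_product.2 ⟨hq, hr⟩, ?_⟩
        rw [if_pos hqr, mem_filter]
        exact ⟨hPT (hSP hpS), hJP q hq p (hSP hpS), hJP r hr p (hSP hpS), hdvd⟩
      refine (card_le_card h2).trans (card_biUnion_le.trans ?_)
      calc _ ≤ ∑ _qr ∈ J ×ˢ J, H := by
            refine sum_le_sum fun qr hqr => ?_
            rw [mem_product] at hqr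
            split_ifs with h
            · exact hbad _ (hJT hqr.1) _ (hJT hqr.2) h
            · simp
        _ = H * K ^ 2 := by
            rw [sum_const, card_product, hJK, smul_eq_mul]
            ring
    have h3 : S.card = (S.filter bad).card + S'.card := by
      rw [hS']
      exact (card_filter_add_card_filter_not bad).symm
    have h4 : (S.card : ℝ) = ((S.filter bad).card : ℝ) + (S'.card : ℝ) := by exact_mod_cast h3
    have h5 : ((S.filter bad).card : ℝ) ≤ (H : ℝ) * (K : ℝ) ^ 2 := by exact_mod_cast h1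
    linarith
  -- the cube for `S'`
  have hcube' : ∀ (H' : Finset ℕ) (y : ℤ), ∃ D : Finset ℕ, H' ⊆ S' → y ∈ Y →
      D ⊆ P ∧ D ∩ S' = H' ∧ ∀ q ∈ J, (q : ℤ) * (∏ p ∈ D, (p : ℤ)) * y ∈
        B.image (twist T u v R) := by
    intro H' y
    by_cases h : H' ⊆ S' ∧ y ∈ Y
    · obtain ⟨D, h1, h2, h3⟩ := hcube y h.2 H' (h.1.trans hS'S)
      refine ⟨D, fun _ _ => ⟨h1, ?_, h3⟩⟩
      rw [← h2]
      ext p
      rw [mem_inter, mem_inter]
      constructor
      · rintro ⟨h4, h5⟩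
        exact ⟨h4, hS'S h5⟩
      · rintro ⟨h4, h5⟩
        refine ⟨h4, h.1 ?_⟩
        rw [← h2, mem_inter]
        exact ⟨h4, h5⟩
    · exact ⟨∅, fun h1 h2 => absurd ⟨h1, h2⟩ h⟩
  choose D hD using hcube'
  have hy0 : ∀ y ∈ Y, y ≠ 0 := by
    intro y hy h
    obtain ⟨q, hq⟩ := hJne
    obtain ⟨-, -, h3⟩ := hD ∅ y (empty_subset _) hy
    have h4 := h3 q hq
    rw [h, mul_zero, mem_image] at h4
    obtain ⟨x, hx, hx0⟩ := h4
    exact twist_ne T u v hu hv R x (fun h => hB (h ▸ hx)) hx0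
  have htinj : ∀ y ∈ Y, ∀ y' ∈ Y, tt T u v R y = tt T u v R y' → y = y' := by
    intro y hy y' hy' h
    have h1 : ∀ p ∈ T, padicValInt p y = padicValInt p y' := fun p hp => by
      have h2 := congrArg (padicValInt p) h
      unfold tt at h2
      rwa [ord_uu T hT u v hu hv p hp y (hy0 y hy), ord_uu T hT u v hu hv p hp y' (hy0 y' hy')]
        at h2
    unfold tt at h
    rw [uu_congr T u v _ _ (fun p => 2 * R - padicValInt p y' - 1)
      (fun p => R + padicValInt p y') (fun p hp => by rw [h1 p hp])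
      (fun p hp => by rw [h1 p hp])] at h
    have h2 : ((uu T u v (fun p => 2 * R - padicValInt p y' - 1)
        (fun p => R + padicValInt p y') : ℕ) : ℤ) ≠ 0 := by
      exact_mod_cast uu_ne T u v hu hv _ _
    exact mul_right_cancel₀ h2 h
  have hinv : ∀ y' : ℤ, ∃ y : ℤ, y' ∈ Y.image (tt T u v R) → y ∈ Y ∧ tt T u v R y = y' := by
    intro y'
    by_cases h : y' ∈ Y.image (tt T u v R)
    · obtain ⟨y, hy, hyy⟩ := mem_image.1 h
      exact ⟨y, fun _ => ⟨hy, hyy⟩⟩
    · exact ⟨0, fun h' => absurd h' h⟩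
  choose ι hι using hinv
  refine ⟨fun i => ((qq T u v J (J.orderEmbOfFin hJK i : ℕ) : ℕ) : ℤ), Y.image (tt T u v R), S',
    P.powerset.image (ee T u v J S'), fun H' y' => ee T u v J S' (D H' (ι y')),
    hYne.image _, ?_, ?_, ?_, fun p hp => hT p (hS'T hp), ?_, ?_, ?_, ?_, ?_, ?_⟩
  · rw [hcard2]
    have h3 : (Y.image (tt T u v R)).card = Y.card :=
      card_image_of_injOn fun y hy y' hy' h => htinj y hy y' hy' h
    rw [h3]
    exact hYlow
  · rw [hcard2]
    exact card_image_le.trans hYle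
  · rw [hcard2]
    refine le_trans ?_ h2T
    have h3 : (P.powerset.image (ee T u v J S')).card ≤ 2 ^ T.card := by
      refine card_image_le.trans ?_
      rw [card_powerset]
      exact Nat.pow_le_pow_right (by norm_num) (card_le_card hPT)
    exact_mod_cast h3
  · rw [hcard2, div_mul_cancel₀ _ hlog.ne']
    exact hS'c
  · intro p hp i j hij
    have hpT := hS'T hp
    have hpp := hT p hpT
    by_contra hne
    have hqr : (J.orderEmbOfFin hJK i : ℕ) ≠ (J.orderEmbOfFin hJK j : ℕ) := fun h =>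
      hne ((J.orderEmbOfFin hJK).injective h)
    have hij' : (((qq T u v J (J.orderEmbOfFin hJK i : ℕ) : ℕ) : ℤ) : ZMod p) =
        (((qq T u v J (J.orderEmbOfFin hJK j : ℕ) : ℕ) : ℤ) : ZMod p) := hij
    have hqJ := Finset.orderEmbOfFin_mem J hJK i
    have hrJ := Finset.orderEmbOfFin_mem J hJK j
    obtain ⟨q, hqd⟩ : ∃ q, q = (J.orderEmbOfFin hJK i : ℕ) := ⟨_, rfl⟩
    obtain ⟨r, hrd⟩ : ∃ r, r = (J.orderEmbOfFin hJK j : ℕ) := ⟨_, rfl⟩
    rw [← hqd, ← hrd] at hij' hqr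
    rw [← hqd] at hqJ
    rw [← hrd] at hrJ
    obtain ⟨c, hc⟩ : ∃ c : ℕ, c = uu T u v (fun t => if t ∈ J ∧ t ≠ q ∧ t ≠ r then 1 else 0)
        (fun _ => 0) := ⟨_, rfl⟩
    have key : ∀ a b : ℕ, a ∈ J → b ∈ J → a ≠ b →
        (∀ t, (t ≠ a ∧ t ≠ b) ↔ (t ≠ q ∧ t ≠ r)) → qq T u v J a = c * (a * u a * v b) := by
      intro a b ha hb hab htt
      have h1 : uu T u v (fun t => if t ∈ J ∧ t ≠ a then 1 else 0)
          (fun t => if t = a then 1 else 0) = c * (u a * v b) := by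
        rw [hc, ← (uu_single T u v a (hJT ha)).1, ← (uu_single T u v b (hJT hb)).2, uu_mul,
          uu_mul]
        refine uu_congr T u v _ _ _ _ ?_ ?_
        · intro t _
          have h2 := htt t
          by_cases hta : t = a
          · have h4 : ¬ (t ≠ q ∧ t ≠ r) := fun h => (h2.2 h).1 hta
            have h5 : ¬ (t ∈ J ∧ t ≠ q ∧ t ≠ r) := fun h => h4 h.2
            have h6 : ¬ t = b := fun h => hab (hta.symm.trans h)
            have h7 : ¬ (t ∈ J ∧ t ≠ a) := fun h => h.2 hta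
            show (if t ∈ J ∧ t ≠ a then 1 else 0) =
              (if t ∈ J ∧ t ≠ q ∧ t ≠ r then 1 else 0) + (0 + if t = b then 1 else 0)
            rw [if_neg h5, if_neg h6, if_neg h7]
          · by_cases htb : t = b
            · have h4 : ¬ (t ≠ q ∧ t ≠ r) := fun h => (h2.2 h).2 htb
              subst htb
              simp only [hb, hta, ne_eq, not_false_eq_true, and_self, if_true, true_and]
              rw [if_neg h4]
            · have h4 := h2.1 ⟨hta, htb⟩
              simp [hta, htb, h4.1, h4.2]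
        · intro t _
          simp
      unfold qq
      rw [h1]
      ring
    have h1 := key q r hqJ hrJ hqr (fun t => Iff.rfl)
    have h2 := key r q hrJ hqJ hqr.symm (fun t => and_comm)
    have h3 : ((qq T u v J q : ℕ) : ℤ) - ((qq T u v J r : ℕ) : ℤ) =
        (c : ℤ) * ((q : ℤ) * u q * v r - (r : ℤ) * u r * v q) := by
      rw [h1, h2]
      push_cast
      ring
    have h4 : (p : ℤ) ∣ ((qq T u v J q : ℕ) : ℤ) - ((qq T u v J r : ℕ) : ℤ) := by
      rw [← ZMod.intCast_zmod_eq_zero_iff_dvd]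
      have h5 : ((((qq T u v J q : ℕ) : ℤ)) : ZMod p) = ((((qq T u v J r : ℕ) : ℤ)) : ZMod p) := hij'
      rw [Int.cast_sub, h5, sub_self]
    rw [h3] at h4
    rcases (Int.Prime.dvd_mul' hpp h4) with h5 | h5
    · refine uu_not_dvd T hT u v hu hv (fun t => if t ∈ J ∧ t ≠ q ∧ t ≠ r then 1 else 0)
        (fun _ => 0) p hpT ?_
      rw [← hc]
      exact_mod_cast h5
    · rw [hS', mem_filter, hbadd] at hp
      exact hp.2 ⟨q, hqJ, r, hrJ, hqr, h5⟩
  · intro p hp i h
    have hpT := hS'T hp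
    have hpp := hT p hpT
    have hqJ := Finset.orderEmbOfFin_mem J hJK i
    have h' : (((qq T u v J (J.orderEmbOfFin hJK i : ℕ) : ℕ) : ℤ) : ZMod p) = 0 := h
    obtain ⟨q, hqd⟩ : ∃ q, q = (J.orderEmbOfFin hJK i : ℕ) := ⟨_, rfl⟩
    rw [← hqd] at h' hqJ
    have h3 : (((qq T u v J q : ℕ) : ℤ) : ZMod p) = 0 := h'
    rw [Int.cast_natCast, ZMod.natCast_eq_zero_iff] at h3
    unfold qq at h3
    rcases (Nat.Prime.dvd_mul hpp).1 h3 with h4 | h4
    · have h5 := Nat.le_of_dvd (hT q (hJT hqJ)).pos h4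
      have h6 := hJP q hqJ p (hSP (hS'S hp))
      omega
    · exact uu_not_dvd T hT u v hu hv _ _ p hpT h4
  · intro H' hH' y' hy'
    obtain ⟨hy, -⟩ := hι y' hy'
    rw [mem_image]
    exact ⟨D H' (ι y'), mem_powerset.2 (hD H' _ hH' hy).1, rfl⟩
  · intro d hd p hp hpd
    obtain ⟨D', hD', rfl⟩ := mem_image.1 hd
    rw [mem_powerset] at hD'
    have hpp := hT p (hS'T hp)
    unfold ee at hpd
    rcases (Nat.Prime.dvd_mul hpp).1 hpd with h4 | h4
    · obtain ⟨r, hr, hpr⟩ := (Prime.dvd_finsetProd_iff hpp.prime _).1 h4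
      have hr' := Finset.mem_sdiff.1 hr
      have hrp : r.Prime := hT r (hPT (hD' hr'.1))
      have : p = r := (Nat.prime_dvd_prime_iff_eq hpp hrp).1 hpr
      exact hr'.2 (this ▸ hp)
    · exact uu_not_dvd T hT u v hu hv _ _ p (hS'T hp) h4
  · intro i H' hH' y' hy'
    obtain ⟨hy, hyy⟩ := hι y' hy'
    obtain ⟨hDP, hDS, hDm⟩ := hD H' (ι y') hH' hy
    have hqJ := Finset.orderEmbOfFin_mem J hJK i
    have h1 := hDm _ hqJ
    rw [mem_image] at h1
    obtain ⟨x, hx, hxz⟩ := h1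
    have hx0 : x ≠ 0 := fun h => hB (h ▸ hx)
    have h2 := identity T hT u v hu hv R hR1 J P S' (D H' (ι y')) H' hJT hPT hJP hDP hDS _ hqJ
      x (ι y') hx0 (hR x hx) hxz
    rw [hyy, ← hM] at h2
    unfold dilate
    rw [mem_image]
    exact ⟨x, hx, h2⟩

include hT hu hv in
/-- **TW1 and TW2** for the same `R` -/
theorem twist_main (B : Finset ℤ) (hB : (0 : ℤ) ∉ B) : ∃ R : ℕ,
    Set.InjOn (twist T u v R) (B : Set ℤ) ∧ (0 : ℤ) ∉ B.image (twist T u v R) ∧
    (∀ p ∈ T, (B.filter (fun x => ∃ y ∈ B, (p : ℤ) * (u p : ℤ) * x = (v p : ℤ) * y)).card ≤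
      ((B.image (twist T u v R)).filter
        (fun z => (p : ℤ) * z ∈ B.image (twist T u v R))).card) ∧
    ∀ (K : ℕ) (ε s : ℝ) (H : ℕ), 0 < K → Cube (B.image (twist T u v R)) T K ε s →
      (2 : ℝ) ^ T.card ≤ (B.card : ℝ) ^ ε → 0 < Real.log (B.card : ℝ) →
      (∀ q ∈ T, ∀ r ∈ T, q ≠ r → (T.filter (fun p => q < p ∧ r < p ∧
        (p : ℤ) ∣ (q : ℤ) * u q * v r - (r : ℤ) * u r * v q)).card ≤ H) →
      (H : ℝ) * (K : ℝ) ^ 2 ≤ s / 2 →
      ∃ M : ℤ, M ≠ 0 ∧ Struct (dilate M B) K ε (s / 2 / Real.log (B.card : ℝ)) := by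
  obtain ⟨R, hRd⟩ : ∃ R : ℕ, R = 1 + ∑ y ∈ B, ∑ r ∈ T, padicValInt r y := ⟨_, rfl⟩
  have hR1 : 1 ≤ R := by omega
  have hR : ∀ y ∈ B, ∀ r ∈ T, padicValInt r y ≤ R := by
    intro y hy r hr
    have h1 : padicValInt r y ≤ ∑ r ∈ T, padicValInt r y :=
      single_le_sum (f := fun r => padicValInt r y) (fun _ _ => Nat.zero_le _) hr
    have h2 : ∑ r ∈ T, padicValInt r y ≤ ∑ y ∈ B, ∑ r ∈ T, padicValInt r y :=
      single_le_sum (f := fun y => ∑ r ∈ T, padicValInt r y) (fun _ _ => Nat.zero_le _) hy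
    omega
  refine ⟨R, ?_, ?_, ?_, ?_⟩
  · intro x hx y hy h
    exact twist_inj T hT u v hu hv R x y (fun h => hB (h ▸ hx)) (fun h => hB (h ▸ hy)) h
  · intro h
    obtain ⟨x, hx, hx0⟩ := mem_image.1 h
    exact twist_ne T u v hu hv R x (fun h => hB (h ▸ hx)) hx0
  · intro p hp
    exact twist_card T hT u v hu hv B hB R hR p hp
  · intro K ε s H hK hC h2T hlog hbad hHK
    exact untwist2 T hT u v hu hv B hB R hR1 hR K hK ε s H hC h2T hlog hbad hHK

end

end Pool.Agent.Helper79.EMS
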