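import Mathlib

set_option autoImplicit false

/-!
# EMS-3 Sharp: the number `log |A| / log log |A|` of acting primes is best possible

`A = {d m : d ∣ n, 1 ≤ m ≤ M}`, `n` the product of the primes up to `z`, `M = 4^(z J)`.
-/

namespace Pool.Agent.Helper79.EMS

open Finset

/-- the example -/
def exA (z M : ℕ) : Finset ℤ :=
  ((primorial z).divisors ×ˢ Finset.Icc 1 M).image (fun dm => ((dm.1 * dm.2 : ℕ) : ℤ))

theorem mem_exA (z M : ℕ) (x : ℤ) : x ∈ exA z M ↔
    ∃ d m : ℕ, d ∣ primorial z ∧ 1 ≤ m ∧ m ≤ M ∧ x = ((d * m : ℕ) : ℤ) := by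
  unfold exA
  rw [mem_image]
  constructor
  · rintro ⟨⟨d, m⟩, h, rfl⟩
    rw [mem_product, Nat.mem_divisors, mem_Icc] at h
    exact ⟨d, m, h.1.1, h.2.1, h.2.2, rfl⟩
  · rintro ⟨d, m, h1, h2, h3, rfl⟩
    refine ⟨(d, m), ?_, rfl⟩
    rw [mem_product, Nat.mem_divisors, mem_Icc]
    exact ⟨⟨h1, (primorial_pos z).ne'⟩, h2, h3⟩

theorem exA_pos (z M : ℕ) (x : ℤ) (hx : x ∈ exA z M) : 1 ≤ x ∧ x ≤ ((4 ^ z * M : ℕ) : ℤ) := by
  obtain ⟨d, m, h1, h2, h3, rfl⟩ := (mem_exA z M x).1 hx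
  have hd : 0 < d := Nat.pos_of_dvd_of_pos h1 (primorial_pos z)
  have hd2 : d ≤ 4 ^ z := (Nat.le_of_dvd (primorial_pos z) h1).trans (primorial_le_four_pow z)
  constructor
  · exact_mod_cast Nat.mul_pos hd h2
  · exact_mod_cast Nat.mul_le_mul hd2 h3

theorem exA_card (z M : ℕ) : M ≤ (exA z M).card ∧ (exA z M).card ≤ 4 ^ z * M := by
  constructor
  · have h1 : (Finset.Icc 1 M).image (fun m : ℕ => (m : ℤ)) ⊆ exA z M := by
      intro x hx
      obtain ⟨m, hm, rfl⟩ := mem_image.1 hx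
      rw [mem_Icc] at hm
      rw [mem_exA]
      exact ⟨1, m, one_dvd _, hm.1, hm.2, by rw [one_mul]⟩
    have h2 := card_le_card h1
    rwa [card_image_of_injective _ Nat.cast_injective, Nat.card_Icc, Nat.add_sub_cancel] at h2
  · have h1 : exA z M ⊆ Finset.Icc (1 : ℤ) ((4 ^ z * M : ℕ) : ℤ) := by
      intro x hx
      rw [mem_Icc]
      exact exA_pos z M x hx
    have h2 := card_le_card h1
    rw [Int.card_Icc] at h2
    omega

theorem exA_act (z M p : ℕ) (hp : p.Prime) (hpz : p ≤ z) :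
    (exA z M).card ≤ 2 * ((exA z M).filter (fun x => (p : ℤ) * x ∈ exA z M)).card := by
  have hpn : p ∣ primorial z := (hp.dvd_primorial_iff).2 hpz
  have h1 : (exA z M).filter (fun x => ¬ (p : ℤ) * x ∈ exA z M) ⊆
      ((exA z M).filter (fun x => (p : ℤ) * x ∈ exA z M)).image (fun x => (p : ℤ) * x) := by
    intro x hx
    obtain ⟨hxA, hxp⟩ := mem_filter.1 hx
    obtain ⟨d, m, h1, h2, h3, rfl⟩ := (mem_exA z M x).1 hxA
    by_cases hpd : p ∣ d
    · obtain ⟨d', rfl⟩ := hpd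
      have hd' : d' ∣ primorial z := (Dvd.intro_left p rfl).trans h1
      rw [mem_image]
      refine ⟨((d' * m : ℕ) : ℤ), mem_filter.2 ⟨(mem_exA z M _).2 ⟨d', m, hd', h2, h3, rfl⟩, ?_⟩, ?_⟩
      · rw [mem_exA]
        refine ⟨p * d', m, h1, h2, h3, ?_⟩
        push_cast
        ring
      · push_cast
        ring
    · exfalso
      apply hxp
      rw [mem_exA]
      refine ⟨p * d, m, ?_, h2, h3, ?_⟩
      · exact Nat.Coprime.mul_dvd_of_dvd_of_dvd ((Nat.Prime.coprime_iff_not_dvd hp).2 hpd) hpn h1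
      · push_cast
        ring
  have h2 := card_le_card h1
  have h3 := h2.trans card_image_le
  have h4 := card_filter_add_card_filter_not (s := exA z M) (fun x => (p : ℤ) * x ∈ exA z M)
  omega

theorem exA_sum (z M k : ℕ) (hk : 1 ≤ k) :
    ((Fintype.piFinset (fun _ : Fin k => exA z M)).image
      (fun f : Fin k → ℤ => ∑ i, f i)).card ≤ k * (4 ^ z * M) := by
  have h1 : (Fintype.piFinset (fun _ : Fin k => exA z M)).image
      (fun f : Fin k → ℤ => ∑ i, f i) ⊆ Finset.Icc (1 : ℤ) ((k * (4 ^ z * M) : ℕ) : ℤ) := by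
    intro x hx
    obtain ⟨f, hf, rfl⟩ := mem_image.1 hx
    rw [Fintype.mem_piFinset] at hf
    rw [mem_Icc]
    constructor
    · have h2 : ∑ _i : Fin k, (1 : ℤ) ≤ ∑ i, f i :=
        sum_le_sum fun i _ => (exA_pos z M _ (hf i)).1
      rw [sum_const, card_univ, Fintype.card_fin, nsmul_eq_mul, mul_one] at h2
      have h3 : (1 : ℤ) ≤ k := by exact_mod_cast hk
      linarith
    · have h2 : ∑ i, f i ≤ ∑ _i : Fin k, ((4 ^ z * M : ℕ) : ℤ) :=
        sum_le_sum fun i _ => (exA_pos z M _ (hf i)).2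
      rw [sum_const, card_univ, Fintype.card_fin, nsmul_eq_mul] at h2
      push_cast at h2 ⊢
      exact h2
  have h2 := card_le_card h1
  rw [Int.card_Icc] at h2
  omega

theorem sq_le_two_pow (z : ℕ) (hz : 6 ≤ z) : (z + 1) ^ 2 ≤ 2 ^ z := by
  induction z, hz using Nat.le_induction with
  | base => norm_num
  | succ n hn ih =>
    have h1 : (n + 1 + 1) ^ 2 ≤ 2 * (n + 1) ^ 2 := by nlinarith
    calc (n + 1 + 1) ^ 2 ≤ 2 * (n + 1) ^ 2 := h1
      _ ≤ 2 * 2 ^ n := Nat.mul_le_mul_left 2 ih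
      _ = 2 ^ (n + 1) := by rw [pow_succ]; ring

/-- [EMS-3] -/
theorem sharp (δ : ℝ) (hδ : 0 < δ) : ∃ c : ℝ, 0 < c ∧ ∀ N0 : ℕ, ∃ (A : Finset ℤ) (T : Finset ℕ),
    N0 ≤ A.card ∧ (0 : ℤ) ∉ A ∧ (∀ p ∈ T, p.Prime) ∧
    c * Real.log A.card ≤ T.card * Real.log (Real.log A.card) ∧
    (∀ p ∈ T, 1 / 2 * (A.card : ℝ) ≤ ((A.filter (fun x => (p : ℤ) * x ∈ A)).card : ℝ)) ∧
    ∀ k : ℕ, 1 ≤ k → (((Fintype.piFinset (fun _ : Fin k => A)).image
      (fun f : Fin k → ℤ => ∑ i, f i)).card : ℝ) ≤ k * (A.card : ℝ) ^ (1 + δ) := by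
  obtain ⟨J, hJ⟩ := exists_nat_ge (1 / δ + 1)
  have hδ1 : 0 < 1 / δ := by positivity
  have hJ1 : (1 : ℝ) ≤ J := by linarith
  have hJ0 : 1 ≤ J := by exact_mod_cast hJ1
  have hJδ : 1 ≤ δ * J := by
    have h1 : 1 / δ ≤ J := by linarith
    rw [div_le_iff₀ hδ] at h1
    linarith
  have hl2 : 0.69 < Real.log 2 := by have := Real.log_two_gt_d9; linarith
  have hl4 : Real.log 4 = 2 * Real.log 2 := by
    rw [show (4 : ℝ) = 2 ^ 2 by norm_num, Real.log_pow]
    norm_num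
  refine ⟨1 / (4 * (J + 1)), by positivity, fun N0 => ?_⟩
  obtain ⟨z, hz⟩ : ∃ z : ℕ, z = N0 + 6 := ⟨_, rfl⟩
  obtain ⟨M, hM⟩ : ∃ M : ℕ, M = 4 ^ (z * J) := ⟨_, rfl⟩
  have hz6 : 6 ≤ z := by omega
  have hzr : (6 : ℝ) ≤ z := by exact_mod_cast hz6
  have hzM : z ≤ M := by
    rw [hM]
    calc z ≤ z * J := Nat.le_mul_of_pos_right _ hJ0
      _ ≤ 4 ^ (z * J) := (Nat.lt_pow_self (by norm_num)).le
  obtain ⟨hc1, hc2⟩ := exA_card z M
  have hMc : (M : ℝ) ≤ ((exA z M).card : ℝ) := by exact_mod_cast hc1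
  have hM1 : (6 : ℝ) ≤ M := hzr.trans (by exact_mod_cast hzM)
  have hA0 : (0 : ℝ) < ((exA z M).card : ℝ) := by linarith
  have hMlog : Real.log (M : ℝ) = z * J * Real.log 4 := by
    rw [hM]
    push_cast
    rw [Real.log_pow]
    push_cast
    ring
  refine ⟨exA z M, (Finset.Icc 1 z).filter Nat.Prime, ?_, ?_, ?_, ?_, ?_, ?_⟩
  · omega
  · intro h
    have := (exA_pos z M 0 h).1
    omega
  · intro p hp
    exact (mem_filter.1 hp).2
  · -- number of primes
    have hπ : (((Finset.Icc 1 z).filter Nat.Prime).card : ℝ) = (Nat.primeCounting z : ℝ) := by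
      congr 1
      rw [Nat.primeCounting, Nat.primeCounting', Nat.count_eq_card_filter_range]
      congr 1
      ext p
      rw [mem_filter, mem_filter, mem_Icc, mem_range]
      constructor
      · rintro ⟨⟨_, h2⟩, h3⟩
        exact ⟨by omega, h3⟩
      · rintro ⟨h2, h3⟩
        exact ⟨⟨h3.one_lt.le, by omega⟩, h3⟩
    rw [hπ]
    have h1 : (z : ℝ) * Real.log 2 - Real.log (z + 1) ≤ Nat.primeCounting z * Real.log z :=
      (Chebyshev.psi_ge z).trans (Chebyshev.psi_le_primeCounting_mul_log z)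
    have h2 : 2 * Real.log ((z : ℝ) + 1) ≤ z * Real.log 2 := by
      have h3 : (((z : ℝ) + 1) ^ 2) ≤ 2 ^ z := by exact_mod_cast sq_le_two_pow z hz6
      have h4 := Real.log_le_log (by positivity) h3
      rw [Real.log_pow, Real.log_pow] at h4
      exact_mod_cast h4
    have h5 : Real.log ((exA z M).card : ℝ) ≤ z * (J + 1) * Real.log 4 := by
      have h6 : ((exA z M).card : ℝ) ≤ 4 ^ z * (M : ℝ) := by exact_mod_cast hc2
      have h7 := Real.log_le_log hA0 h6
      rw [Real.log_mul (by positivity) (by positivity), hMlog, Real.log_pow] at h7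
      linarith
    have h8 : (z : ℝ) ≤ Real.log ((exA z M).card : ℝ) := by
      have h9 := Real.log_le_log (by positivity) hMc
      rw [hMlog, hl4] at h9
      have h10 : (z : ℝ) * 1 ≤ z * (J * (2 * Real.log 2)) := by
        refine mul_le_mul_of_nonneg_left ?_ (Nat.cast_nonneg _)
        nlinarith
      linarith
    have h11 : Real.log (z : ℝ) ≤ Real.log (Real.log ((exA z M).card : ℝ)) :=
      Real.log_le_log (by linarith) h8
    calc 1 / (4 * ((J : ℝ) + 1)) * Real.log ((exA z M).card : ℝ)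
        ≤ 1 / (4 * ((J : ℝ) + 1)) * (z * (J + 1) * Real.log 4) :=
          mul_le_mul_of_nonneg_left h5 (by positivity)
      _ = z * Real.log 2 / 2 := by
          rw [hl4]
          field_simp
          ring
      _ ≤ Nat.primeCounting z * Real.log z := by linarith
      _ ≤ Nat.primeCounting z * Real.log (Real.log ((exA z M).card : ℝ)) :=
          mul_le_mul_of_nonneg_left h11 (Nat.cast_nonneg _)
  · intro p hp
    rw [mem_filter, mem_Icc] at hp
    have h1 := exA_act z M p hp.2 hp.1.2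
    have h2 : ((exA z M).card : ℝ) ≤
        2 * (((exA z M).filter (fun x => (p : ℤ) * x ∈ exA z M)).card : ℝ) := by exact_mod_cast h1
    linarith
  · intro k hk
    have h1 := exA_sum z M k hk
    have h2 : (((Fintype.piFinset (fun _ : Fin k => exA z M)).image
        (fun f : Fin k → ℤ => ∑ i, f i)).card : ℝ) ≤ k * (4 ^ z * (M : ℝ)) := by exact_mod_cast h1
    refine h2.trans (mul_le_mul_of_nonneg_left ?_ (Nat.cast_nonneg _))
    have h3 : (4 : ℝ) ^ z ≤ (M : ℝ) ^ δ := by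
      rw [hM]
      push_cast
      rw [← Real.rpow_natCast, ← Real.rpow_natCast, ← Real.rpow_mul (by norm_num)]
      refine Real.rpow_le_rpow_of_exponent_le (by norm_num) ?_
      push_cast
      calc (z : ℝ) = z * 1 := (mul_one _).symm
        _ ≤ z * (δ * J) := mul_le_mul_of_nonneg_left hJδ (Nat.cast_nonneg _)
        _ = z * J * δ := by ring
    calc (4 : ℝ) ^ z * M ≤ (M : ℝ) ^ δ * M := mul_le_mul_of_nonneg_right h3 (Nat.cast_nonneg _)
      _ = (M : ℝ) ^ (1 + δ) := by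
          rw [Real.rpow_add (by linarith), Real.rpow_one]
          ring
      _ ≤ ((exA z M).card : ℝ) ^ (1 + δ) :=
          Real.rpow_le_rpow (by linarith) hMc (by linarith)

theorem order_optimal : ∀ η : ℝ, 0 < η → ∃ c' : ℝ, 0 < c' ∧ ∀ N0 : ℕ,
    ∃ (A : Finset ℤ) (T : Finset ℕ), N0 ≤ A.card ∧ (0 : ℤ) ∉ A ∧ (∀ p ∈ T, p.Prime) ∧
    c' * Real.log (A.card : ℝ) ≤ (T.card : ℝ) * Real.log (Real.log (A.card : ℝ)) ∧
    (∀ p ∈ T, (1 / 2 : ℝ) * (A.card : ℝ) ≤
      ((A.filter (fun x => (p : ℤ) * x ∈ A)).card : ℝ)) ∧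
    ∀ k : ℕ, (((Fintype.piFinset (fun _ : Fin k => A)).image
      (fun f : Fin k → ℤ => ∑ i, f i)).card : ℝ) ≤ ((k : ℝ) + 1) * (A.card : ℝ) ^ (1 + η) := by
  intro η hη
  obtain ⟨c, hc, h⟩ := sharp η hη
  refine ⟨c, hc, fun N0 => ?_⟩
  obtain ⟨A, T, h1, h2, h3, h4, h5, h6⟩ := h (N0 + 1)
  have hA1 : (1 : ℝ) ≤ A.card := by exact_mod_cast (by omega : 1 ≤ A.card)
  have hp : (1 : ℝ) ≤ (A.card : ℝ) ^ (1 + η) := Real.one_le_rpow hA1 (by linarith)
  refine ⟨A, T, by omega, h2, h3, h4, h5, fun k => ?_⟩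
  rcases Nat.eq_zero_or_pos k with hk | hk
  · subst hk
    have h7 : (((Fintype.piFinset (fun _ : Fin 0 => A)).image
        (fun f : Fin 0 → ℤ => ∑ i, f i)).card : ℝ) ≤ 1 := by
      have h8 : ((Fintype.piFinset (fun _ : Fin 0 => A)).image
        (fun f : Fin 0 → ℤ => ∑ i, f i)).card ≤ 1 := by
        refine card_image_le.trans ?_
        rw [Fintype.card_piFinset]
        simp
      exact_mod_cast h8
    refine h7.trans ?_
    rw [Nat.cast_zero, zero_add, one_mul]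
    exact hp
  · refine (h6 k hk).trans ?_
    refine mul_le_mul_of_nonneg_right ?_ (by linarith)
    linarith

end Pool.Agent.Helper79.EMS
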