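import Pool.Agent.Helper79.EMS.Twist2
import Pool.Agent.Helper15.SA.Main

set_option autoImplicit false

/-! # EMS-4 Spec: the twist in the form of `Helper15/SA/Main.lean` -/

namespace Pool.Agent.Helper79.EMS

open Finset Pool.Agent.Helper80.DR Pool.Agent.Helper15.SA

theorem struct_mono (A : Finset ℤ) (K : ℕ) (ε δ δ' : ℝ) (hδ : δ' ≤ δ)
    (hlog : 0 ≤ Real.log (A.card : ℝ)) (h : Struct A K ε δ) : Struct A K ε δ' := by
  obtain ⟨q, Y, S, E, e, h1, h2, h3, h4, h5, h6, h7⟩ := h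
  exact ⟨q, Y, S, E, e, h1, h2, h3, h4, h5, (mul_le_mul_of_nonneg_right hδ hlog).trans h6, h7⟩

theorem twist_spec : TwistSpec := by
  intro B T u v hB hT huv
  obtain ⟨R, h1, h2, h3, h4⟩ := twist_main T hT u v (fun p hp r hr => (huv p hp r hr).1)
    (fun p hp r hr => (huv p hp r hr).2) B hB
  refine ⟨R, h1, h2, h3, ?_⟩
  intro K ε s H hC h2T hlog hbad hHK
  have hB0 : B.Nonempty := by
    rw [nonempty_iff_ne_empty]
    rintro rfl
    simp at hlog
  have hcard : ∀ M : ℤ, M ≠ 0 → (dilate M B).card = B.card := fun M hM => by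
    unfold dilate
    exact card_image_of_injective _ fun x y h => mul_left_cancel₀ hM h
  rcases Nat.eq_zero_or_pos K with hK | hK
  · -- `K = 0`
    subst hK
    obtain ⟨J, P, S, Y, hJT, hJK, hPT, hSP, hJP, hs, hYne, hYlow, hYle, hcube⟩ := hC
    refine ⟨1, one_ne_zero, fun _ => 0, Y, S, {1}, fun _ _ => 1, hYne, ?_, ?_, ?_,
      fun p hp => hT p (hPT (hSP hp)), ?_, ?_, ?_, ?_, ?_, ?_⟩
    · rw [hcard 1 one_ne_zero]
      rwa [card_image_of_injOn h1] at hYlow
    · rw [hcard 1 one_ne_zero]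
      rwa [card_image_of_injOn h1] at hYle
    · rw [hcard 1 one_ne_zero, card_singleton, Nat.cast_one]
      exact (one_le_pow₀ (by norm_num)).trans h2T
    · rw [hcard 1 one_ne_zero, div_mul_cancel₀ _ hlog.ne']
      have : (0 : ℝ) ≤ S.card := Nat.cast_nonneg _
      linarith
    · intro p _ i
      exact i.elim0
    · intro p _ i
      exact i.elim0
    · intro H' _ y _
      exact mem_singleton_self 1
    · intro d hd p hp hpd
      rw [mem_singleton] at hd
      subst hd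
      exact (hT p (hPT (hSP hp))).one_lt.ne' (Nat.dvd_one.1 hpd)
    · intro i
      exact i.elim0
  · have hK2 : (0 : ℝ) < (K : ℝ) ^ 2 := by positivity
    have hbad' : ∀ q ∈ T, ∀ r ∈ T, q ≠ r → (T.filter (fun p => q < p ∧ r < p ∧
        (p : ℤ) ∣ (q : ℤ) * u q * v r - (r : ℤ) * u r * v q)).card ≤ ⌊H⌋₊ := by
      intro q hq r hr hqr
      exact Nat.le_floor (hbad q hq r hr hqr)
    rcases le_or_gt 0 s with hs | hs
    · refine h4 K ε s ⌊H⌋₊ hK hC h2T hlog hbad' ?_
      rcases le_or_gt 0 H with hH | hH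
      · exact (mul_le_mul_of_nonneg_right (Nat.floor_le hH) hK2.le).trans hHK
      · rw [Nat.floor_of_nonpos hH.le, Nat.cast_zero, zero_mul]
        linarith
    · have hH : H < 0 := by
        by_contra hneg
        have : 0 ≤ H * (K : ℝ) ^ 2 := mul_nonneg (not_lt.1 hneg) hK2.le
        linarith
      obtain ⟨J, P, S, Y, hJT, hJK, hPT, hSP, hJP, hs', hrest⟩ := hC
      obtain ⟨M, hM, hS⟩ := h4 K ε 0 ⌊H⌋₊ hK
        ⟨J, P, S, Y, hJT, hJK, hPT, hSP, hJP, Nat.cast_nonneg _, hrest⟩ h2T hlog hbad' (by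
          rw [Nat.floor_of_nonpos hH.le, Nat.cast_zero, zero_mul, zero_div])
      refine ⟨M, hM, struct_mono _ _ _ _ _ ?_ ?_ hS⟩
      · rw [zero_div, zero_div]
        exact (div_neg_of_neg_of_pos (by linarith) hlog).le
      · rw [hcard M hM]
        exact hlog.le

end Pool.Agent.Helper79.EMS
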